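import Pool.Agent.H45R2.MatVar.Defs

/-!
# A non-soluble, locally finite pro-p group of `n × n` matrices of finite exponent, `n ≥ 2`

Adapted from the library of the starting result (`n ≥ 3`).
-/

set_option autoImplicit false

namespace Pool.Agent.Y113.TA

open Pool.Agent.Helper429.PT Pool.Agent.H45R2.MatVar

/-- Finite local rings whose radical consists of elements with `u ^ p = 0`, together with a list
of `N` elements of the radical with nonzero product. -/
structure Dat2 (p N : ℕ) where
  /-- the ring -/
  B : Type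
  /-- commutative ring -/
  inst : CommRing B
  fin : Finite B
  char : (p : B) = 0
  /-- the residue map -/
  aug : B →+* ZMod p
  pow : ∀ u, aug u = 0 → u ^ p = 0
  /-- the elements -/
  l : List B
  len : l.length = N
  mem : ∀ x ∈ l, aug x = 0
  sq : ∀ x ∈ l, x * x = 0
  ne : l.prod ≠ 0

theorem exists_dat {p : ℕ} (hp : p.Prime) : ∀ N, Nonempty (Dat2 p N) := by
  intro N
  have : Fact p.Prime := ⟨hp⟩
  induction N with
  | zero =>
    exact ⟨{ B := ZMod p
             inst := inferInstance
             fin := inferInstance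
             char := by simp
             aug := RingHom.id _
             pow := fun u hu => by
               have : u = 0 := hu
               rw [this, zero_pow hp.ne_zero]
             l := []
             len := rfl
             mem := by simp
             sq := by simp
             ne := by simp }⟩
  | succ N ih =>
    obtain ⟨D⟩ := ih
    let _ := D.inst
    have hfin := D.fin
    have hchar := D.char
    refine ⟨{ B := DualNumber D.B
              inst := inferInstance
              fin := ?_
              char := ?_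
              aug := D.aug.comp (TrivSqZeroExt.fstHom D.B D.B D.B).toRingHom
              pow := ?_
              l := D.l.map (TrivSqZeroExt.inlHom D.B D.B) ++ [DualNumber.eps]
              len := ?_
              mem := ?_
              sq := ?_
              ne := ?_ }⟩
    · exact inferInstanceAs (Finite (D.B × D.B))
    · have h1 : (TrivSqZeroExt.inl (p : D.B) : DualNumber D.B) = (p : DualNumber D.B) :=
        TrivSqZeroExt.inl_natCast p
      rw [← h1, hchar]; rfl
    · intro u hu
      have h1 : D.aug u.fst = 0 := hu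
      have h2 := D.pow _ h1
      apply TrivSqZeroExt.ext
      · rw [TrivSqZeroExt.fst_pow, h2]; rfl
      · rw [TrivSqZeroExt.snd_pow]
        have : (p : D.B) • (u.fst ^ p.pred • u.snd) = 0 := by rw [hchar, zero_smul]
        rw [Nat.cast_smul_eq_nsmul] at this
        exact this
    · simp [D.len]
    · intro x hx
      rw [List.mem_append, List.mem_map, List.mem_singleton] at hx
      rcases hx with ⟨y, hy, rfl⟩ | rfl
      · change D.aug y = 0
        exact D.mem y hy
      · change D.aug 0 = 0
        exact map_zero _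
    · intro x hx
      rw [List.mem_append, List.mem_map, List.mem_singleton] at hx
      rcases hx with ⟨y, hy, rfl⟩ | rfl
      · rw [← map_mul, D.sq y hy, map_zero]
      · exact DualNumber.eps_mul_eps
    · rw [List.prod_append, List.prod_singleton, ← map_list_prod]
      intro h
      have h2 := congrArg TrivSqZeroExt.snd h
      rw [TrivSqZeroExt.snd_mul] at h2
      simp at h2
      exact D.ne h2

section ring

variable {p : ℕ} (hp : p.Prime)

/-- chosen data -/
noncomputable def dat (N : ℕ) : Dat2 p N := (exists_dat hp N).some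

noncomputable instance (N : ℕ) : CommRing (dat hp N).B := (dat hp N).inst
instance (N : ℕ) : Finite (dat hp N).B := (dat hp N).fin
instance (N : ℕ) : TopologicalSpace (dat hp N).B := ⊥
instance (N : ℕ) : DiscreteTopology (dat hp N).B := ⟨rfl⟩

/-- the profinite ring -/
abbrev RR : Type := ∀ N : ℕ, (dat hp N).B

/-- the residue maps -/
noncomputable def au (N : ℕ) : RR hp →+* ZMod p := (dat hp N).aug.comp (Pi.evalRingHom _ N)

theorem pow_eq_zero {u : RR hp} (hu : ∀ N, au hp N u = 0) : u ^ p = 0 := by
  funext N
  exact (dat hp N).pow _ (hu N)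

theorem charRR : CharP (RR hp) p := by
  have h0 : (p : RR hp) = 0 := by
    funext N
    exact (dat hp N).char
  have hn : Nontrivial (RR hp) := by
    refine ⟨0, 1, fun h => ?_⟩
    have h1 := congrFun h 0
    apply (dat hp 0).ne
    calc (dat hp 0).l.prod = (dat hp 0).l.prod * 1 := by rw [mul_one]
      _ = (dat hp 0).l.prod * 0 := by
          congr 1; exact h1.symm
      _ = 0 := mul_zero _
  exact (CharP.charP_iff_prime_eq_zero hp).2 h0

theorem entries_pow {n : ℕ} (A : Matrix (Fin n) (Fin n) (RR hp))
    (hA : ∀ N i j, au hp N (A i j) = 0) : A ^ (n * p) = 0 := by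
  have : Fact p.Prime := ⟨hp⟩
  have := charRR hp
  set χ := A.charpoly with hχ
  set P := χ - Polynomial.X ^ n with hP
  have hco : ∀ k N, au hp N (P.coeff k) = 0 := by
    intro k N
    have h1 : (A.map (au hp N)) = 0 := by
      ext i j; exact hA N i j
    have h2 : χ.map (au hp N) = Polynomial.X ^ n := by
      rw [hχ, ← Matrix.charpoly_map, h1]
      simp
    have h3 : P.map (au hp N) = 0 := by
      rw [hP, Polynomial.map_sub, h2, Polynomial.map_pow, Polynomial.map_X, sub_self]
    have h4 := congrArg (fun q => Polynomial.coeff q k) h3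
    simpa [Polynomial.coeff_map] using h4
  have hPp : P ^ p = 0 := by
    rw [← Polynomial.map_frobenius_expand p]
    apply Polynomial.ext
    intro k
    rw [Polynomial.coeff_map, Polynomial.coeff_expand hp.pos, Polynomial.coeff_zero]
    split_ifs
    · rw [frobenius_def]
      exact pow_eq_zero hp (hco _)
    · exact map_zero _
  have h5 : Polynomial.aeval A P = -(A ^ n) := by
    rw [hP, map_sub, hχ, Matrix.aeval_self_charpoly, map_pow, Polynomial.aeval_X, zero_sub]
  have h6 := congrArg (Polynomial.aeval A) hPp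
  rw [map_pow, h5, map_zero, neg_pow, ← pow_mul] at h6
  rcases neg_one_pow_eq_or (Matrix (Fin n) (Fin n) (RR hp)) p with h7 | h7
  · rwa [h7, one_mul] at h6
  · rwa [h7, neg_one_mul, neg_eq_zero] at h6

/-- the congruence subgroup -/
noncomputable def KK (n : ℕ) : Subgroup (GL (Fin n) (RR hp)) where
  carrier := {g | ∀ N i j, au hp N ((g : Matrix (Fin n) (Fin n) (RR hp)) i j) =
    (1 : Matrix (Fin n) (Fin n) (ZMod p)) i j}
  one_mem' := by
    intro N i j
    rw [Units.val_one, Matrix.one_apply, Matrix.one_apply]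
    split_ifs
    · exact map_one _
    · exact map_zero _
  mul_mem' := by
    intro a b ha hb N i j
    rw [Units.val_mul, Matrix.mul_apply, map_sum]
    simp_rw [map_mul, ha N, hb N]
    rw [← Matrix.mul_apply, one_mul]
  inv_mem' := by
    intro a ha N i j
    have h1 : (Matrix.GeneralLinearGroup.map (n := Fin n) (au hp N) a) = 1 := by
      ext i j
      rw [Matrix.GeneralLinearGroup.map_apply]
      exact ha N i j
    have h2 : (Matrix.GeneralLinearGroup.map (n := Fin n) (au hp N) a⁻¹) = 1 := by
      rw [map_inv, h1, inv_one]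
    have h3 : (Matrix.GeneralLinearGroup.map (n := Fin n) (au hp N) a⁻¹) i j =
        (1 : Matrix (Fin n) (Fin n) (ZMod p)) i j := by rw [h2]; rfl
    rw [Matrix.GeneralLinearGroup.map_apply] at h3
    exact h3

theorem exponent {n k : ℕ} (hn : 1 ≤ n) (hk : n * p ≤ p ^ k) (g : KK hp n) : g ^ (p ^ k) = 1 := by
  have : Fact p.Prime := ⟨hp⟩
  have := charRR hp
  have : Nonempty (Fin n) := ⟨⟨0, by omega⟩⟩
  have : CharP (Matrix (Fin n) (Fin n) (RR hp)) p := Matrix.charP p
  set A : Matrix (Fin n) (Fin n) (RR hp) := (g.1 : Matrix (Fin n) (Fin n) (RR hp)) - 1 with hA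
  have h1 : A ^ (n * p) = 0 := by
    apply entries_pow
    intro N i j
    rw [hA, Matrix.sub_apply, map_sub, g.2 N i j, Matrix.one_apply, Matrix.one_apply]
    split_ifs
    · rw [map_one, sub_self]
    · rw [map_zero, sub_self]
  have h2 : A ^ (p ^ k) = 0 := pow_eq_zero_of_le hk h1
  have h3 : (g.1 : Matrix (Fin n) (Fin n) (RR hp)) = 1 + A := by rw [hA]; abel
  apply Subtype.ext
  apply Units.ext
  rw [Subgroup.coe_pow, Units.val_pow_eq_pow_val, h3,
    add_pow_char_pow_of_commute p k (Commute.one_left A), one_pow, h2, add_zero]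
  rfl

theorem le_pow {q : ℕ} (hq : q.Prime) {n : ℕ} (hn : 1 ≤ n) : n * q ≤ q ^ n := by
  obtain ⟨k, rfl⟩ : ∃ k, n = k + 1 := ⟨n - 1, by omega⟩
  rw [pow_succ]
  apply Nat.mul_le_mul_right
  exact Nat.lt_pow_self hq.one_lt

/-! ### topology -/

instance : CompactSpace (RR hp) := inferInstance
instance : T2Space (RR hp) := inferInstance
instance : TotallyDisconnectedSpace (RR hp) := inferInstance

theorem compact_mat (n : ℕ) : CompactSpace (Matrix (Fin n) (Fin n) (RR hp)) :=
  inferInstanceAs (CompactSpace (Fin n → Fin n → RR hp))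

theorem compact_units {M : Type} [Monoid M] [TopologicalSpace M] [ContinuousMul M] [T1Space M]
    [CompactSpace M] : CompactSpace Mˣ :=
  (Units.isClosedEmbedding_embedProduct (α := M)).compactSpace

theorem compact_GL' (n : ℕ) {R : Type} [CommRing R] [TopologicalSpace R] [IsTopologicalRing R]
    [T1Space R] [CompactSpace (Matrix (Fin n) (Fin n) R)] : CompactSpace (GL (Fin n) R) :=
  have : T1Space (Matrix (Fin n) (Fin n) R) := inferInstanceAs (T1Space (Fin n → Fin n → R))
  compact_units

theorem compact_GL (n : ℕ) : CompactSpace (GL (Fin n) (RR hp)) := by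
  have := compact_mat hp n
  exact compact_GL' n

theorem continuous_entry (n N : ℕ) (i j : Fin n) :
    Continuous fun g : GL (Fin n) (RR hp) => (g : Matrix (Fin n) (Fin n) (RR hp)) i j N := by
  have h1 : Continuous fun g : GL (Fin n) (RR hp) => (g : Matrix (Fin n) (Fin n) (RR hp)) :=
    Units.continuous_val
  have h2 : Continuous fun M : Matrix (Fin n) (Fin n) (RR hp) => M i j :=
    continuous_id.matrix_elem i j
  exact (continuous_apply N).comp (h2.comp h1)

theorem isClosed_KK (n : ℕ) : IsClosed (KK hp n : Set (GL (Fin n) (RR hp))) := by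
  have h : (KK hp n : Set (GL (Fin n) (RR hp))) = ⋂ N, ⋂ i, ⋂ j,
      (fun g : GL (Fin n) (RR hp) => (g : Matrix (Fin n) (Fin n) (RR hp)) i j N) ⁻¹'
        {x | (dat hp N).aug x = (1 : Matrix (Fin n) (Fin n) (ZMod p)) i j} := by
    ext g
    simp only [Set.mem_iInter]
    rfl
  rw [h]
  exact isClosed_iInter fun N => isClosed_iInter fun i => isClosed_iInter fun j =>
    (isClosed_discrete _).preimage (continuous_entry hp n N i j)

theorem continuous_val_KK (n : ℕ) :
    Continuous fun g : KK hp n => ((g.1 : GL (Fin n) (RR hp)) : Matrix (Fin n) (Fin n) (RR hp)) :=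
  Units.continuous_val.comp continuous_subtype_val

theorem injective_val_KK (n : ℕ) : Function.Injective
    fun g : KK hp n => ((g.1 : GL (Fin n) (RR hp)) : Matrix (Fin n) (Fin n) (RR hp)) :=
  fun _ _ h => Subtype.ext (Units.ext h)

theorem compact_KK (n : ℕ) : CompactSpace (KK hp n) := by
  have := compact_GL hp n
  exact isCompact_iff_compactSpace.1 (isClosed_KK hp n).isCompact

theorem isProP_KK {n : ℕ} (hn : 1 ≤ n) : IsProP p (KK hp n) := by
  have := compact_KK hp n
  refine ⟨this, inferInstance, ⟨?_⟩, ?_⟩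
  · apply isTotallyDisconnected_of_image (f := fun g : KK hp n =>
      ((g.1 : GL (Fin n) (RR hp)) : Matrix (Fin n) (Fin n) (RR hp)))
      (continuous_val_KK hp n).continuousOn (injective_val_KK hp n)
    have h : TotallyDisconnectedSpace (Matrix (Fin n) (Fin n) (RR hp)) :=
      inferInstanceAs (TotallyDisconnectedSpace (Fin n → Fin n → RR hp))
    exact isTotallyDisconnected_of_totallyDisconnectedSpace _
  · intro N hN hNo
    have h1 : N.FiniteIndex := by
      have h2 : Finite (KK hp n ⧸ N) := Subgroup.quotient_finite_of_isOpen N hNo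
      exact Subgroup.finiteIndex_of_finite_quotient
    have h2 : IsPGroup p (KK hp n ⧸ N) := by
      intro x
      refine ⟨n, ?_⟩
      obtain ⟨g, rfl⟩ := QuotientGroup.mk_surjective x
      rw [← QuotientGroup.mk_pow, exponent hp hn (le_pow hp hn) g, QuotientGroup.mk_one]
    have : Fact p.Prime := ⟨hp⟩
    obtain ⟨k, hk⟩ := (IsPGroup.iff_card).1 h2
    exact ⟨k, hk⟩

/-! ### non-solubility -/

theorem single_comm {n : ℕ} {r s t : Fin n} (hrs : r ≠ s) (hrt : r ≠ t) (hts : t ≠ s)
    (a b : RR hp) :
    (1 + Matrix.single r t a) * (1 + Matrix.single t s b) * (1 - Matrix.single r t a) *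
      (1 - Matrix.single t s b) = 1 + Matrix.single r s (a * b) := by
  have hxx : Matrix.single r t a * Matrix.single r t a = 0 :=
    Matrix.single_mul_single_of_ne _ _ _ _ (Ne.symm hrt) _
  have hyy : Matrix.single t s b * Matrix.single t s b = 0 :=
    Matrix.single_mul_single_of_ne _ _ _ _ (Ne.symm hts) _
  have hyx : Matrix.single t s b * Matrix.single r t a = 0 :=
    Matrix.single_mul_single_of_ne _ _ _ _ (Ne.symm hrs) _
  have hxy : Matrix.single r t a * Matrix.single t s b = Matrix.single r s (a * b) :=
    Matrix.single_mul_single_same _ _ _ _ _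
  rw [← hxy]
  generalize Matrix.single r t a = x at *
  generalize Matrix.single t s b = y at *
  have h1 : (1 + x) * (1 + y) * (1 - x) = 1 + y + x * y := by
    have : (1 + x) * (1 + y) * (1 - x) = 1 + y + x * y - x * x - y * x - x * (y * x) := by
      noncomm_ring
    rw [this, hxx, hyx, mul_zero, sub_zero, sub_zero, sub_zero]
  rw [h1]
  have : (1 + y + x * y) * (1 - y) = 1 + x * y - y * y - x * (y * y) := by noncomm_ring
  rw [this, hyy, mul_zero, sub_zero, sub_zero]

/-- elementary matrices -/
noncomputable def el {n : ℕ} {r s : Fin n} (h : r ≠ s) (a : RR hp) : GL (Fin n) (RR hp) where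
  val := 1 + Matrix.single r s a
  inv := 1 - Matrix.single r s a
  val_inv := by
    have hxx : Matrix.single r s a * Matrix.single r s a = 0 :=
      Matrix.single_mul_single_of_ne _ _ _ _ (Ne.symm h) _
    have : (1 + Matrix.single r s a) * (1 - Matrix.single r s a) =
      1 - Matrix.single r s a * Matrix.single r s a := by noncomm_ring
    rw [this, hxx, sub_zero]
  inv_val := by
    have hxx : Matrix.single r s a * Matrix.single r s a = 0 :=
      Matrix.single_mul_single_of_ne _ _ _ _ (Ne.symm h) _
    have : (1 - Matrix.single r s a) * (1 + Matrix.single r s a) =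
      1 - Matrix.single r s a * Matrix.single r s a := by noncomm_ring
    rw [this, hxx, sub_zero]

theorem el_mem {n : ℕ} {r s : Fin n} (h : r ≠ s) {a : RR hp} (ha : ∀ N, au hp N a = 0) :
    el hp h a ∈ KK hp n := by
  intro N i j
  change au hp N ((1 + Matrix.single r s a) i j) = _
  rw [Matrix.add_apply, map_add, Matrix.one_apply, Matrix.one_apply, Matrix.single_apply]
  have : au hp N (if r = i ∧ s = j then a else 0) = 0 := by
    split_ifs
    · exact ha N
    · exact map_zero _
  rw [this, add_zero]
  split_ifs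
  · exact map_one _
  · exact map_zero _

open scoped commutatorElement

theorem el_mem_derived {n : ℕ} (hn : 3 ≤ n) (k : ℕ) : ∀ (l : List (RR hp)),
    l.length = 2 ^ k → (∀ x ∈ l, ∀ N, au hp N x = 0) → ∀ (r s : Fin n) (h : r ≠ s)
    (hm : el hp h l.prod ∈ KK hp n), (⟨el hp h l.prod, hm⟩ : KK hp n) ∈ derivedSeries (KK hp n) k := by
  induction k with
  | zero => intro l _ _ r s h hm; rw [derivedSeries_zero]; exact Subgroup.mem_top _
  | succ k ih =>
    intro l hl hx r s h hm
    obtain ⟨t, ht⟩ : ∃ t : Fin n, t ≠ r ∧ t ≠ s := by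
      have : ((Finset.univ : Finset (Fin n)) \ {r, s}).Nonempty := by
        rw [← Finset.card_pos]
        have h1 := Finset.le_card_sdiff {r, s} (Finset.univ : Finset (Fin n))
        have h2 : ({r, s} : Finset (Fin n)).card ≤ 2 := Finset.card_le_two
        rw [Finset.card_univ, Fintype.card_fin] at h1
        omega
      obtain ⟨t, ht⟩ := this
      simp only [Finset.mem_sdiff, Finset.mem_univ, Finset.mem_insert, Finset.mem_singleton,
        true_and, not_or] at ht
      exact ⟨t, ht⟩
    have hp0 : ∀ l' : List (RR hp), l' ≠ [] → (∀ x ∈ l', ∀ N, au hp N x = 0) →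
        ∀ N, au hp N l'.prod = 0 := by
      intro l' hne hx' N
      obtain ⟨x, l'', rfl⟩ := List.exists_cons_of_ne_nil hne
      rw [List.prod_cons, map_mul, hx' x (by simp) N, zero_mul]
    have hpos : 0 < 2 ^ k := by positivity
    have hl1 : (l.take (2 ^ k)).length = 2 ^ k := by
      rw [List.length_take, hl, pow_succ]; omega
    have hl2 : (l.drop (2 ^ k)).length = 2 ^ k := by
      rw [List.length_drop, hl, pow_succ]; omega
    have hx1 : ∀ x ∈ l.take (2 ^ k), ∀ N, au hp N x = 0 := fun x hx' =>
      hx x (List.mem_of_mem_take hx')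
    have hx2 : ∀ x ∈ l.drop (2 ^ k), ∀ N, au hp N x = 0 := fun x hx' =>
      hx x (List.mem_of_mem_drop hx')
    have hm1 := el_mem hp (n := n) (Ne.symm ht.1) (hp0 _ (by
      intro h0; rw [h0] at hl1; exact absurd hpos (by rw [← hl1]; exact lt_irrefl 0)) hx1)
    have hm2 := el_mem hp (n := n) ht.2 (hp0 _ (by
      intro h0; rw [h0] at hl2; exact absurd hpos (by rw [← hl2]; exact lt_irrefl 0)) hx2)
    have h1 := ih _ hl1 hx1 r t (Ne.symm ht.1) hm1
    have h2 := ih _ hl2 hx2 t s ht.2 hm2
    rw [derivedSeries_succ]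
    have h3 := Subgroup.commutator_mem_commutator h1 h2
    convert h3 using 1
    apply Subtype.ext
    apply Units.ext
    change _ = (1 + Matrix.single r t (l.take (2 ^ k)).prod) *
      (1 + Matrix.single t s (l.drop (2 ^ k)).prod) * (1 - Matrix.single r t (l.take (2 ^ k)).prod) *
      (1 - Matrix.single t s (l.drop (2 ^ k)).prod)
    rw [single_comm hp h (Ne.symm ht.1) ht.2, List.prod_take_mul_prod_drop]
    rfl

/-- a long list of elements of the radical with square zero -/
theorem long_list (N : ℕ) : ∃ l : List (RR hp), l.length = N ∧ (∀ x ∈ l, ∀ M, au hp M x = 0) ∧ (∀ x ∈ l, x * x = 0) ∧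
    l.prod ≠ 0 := by
  set l : List (RR hp) := (dat hp N).l.map (fun x => Pi.single N x) with hl
  refine ⟨l, by rw [hl, List.length_map, (dat hp N).len], ?_, ?_, ?_⟩
  · intro x hx M
    rw [hl, List.mem_map] at hx
    obtain ⟨y, hy, rfl⟩ := hx
    change (dat hp M).aug ((Pi.single N y : RR hp) M) = 0
    by_cases h : M = N
    · subst h
      rw [Pi.single_eq_same]
      exact (dat hp _).mem y hy
    · rw [Pi.single_eq_of_ne h]; exact map_zero _
  · intro x hx
    rw [hl, List.mem_map] at hx
    obtain ⟨y, hy, rfl⟩ := hx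
    rw [← Pi.single_mul, (dat hp N).sq y hy, Pi.single_zero]
  · intro h0
    have hprod : l.prod N = (dat hp N).l.prod := by
      have h1 : l.prod N = (l.map (Pi.evalRingHom (fun N => (dat hp N).B) N)).prod := by
        rw [← map_list_prod]; rfl
      rw [h1, hl, List.map_map]
      congr 1
      conv_rhs => rw [← List.map_id (dat hp N).l]
      apply List.map_congr_left
      intro x _
      simp
    apply (dat hp N).ne
    rw [← hprod, h0]; rfl

theorem prod_rad {l : List (RR hp)} (hne : l ≠ []) (hx : ∀ x ∈ l, ∀ N, au hp N x = 0) (N : ℕ) : au hp N l.prod = 0 := by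
  obtain ⟨x, l'', rfl⟩ := List.exists_cons_of_ne_nil hne
  rw [List.prod_cons, map_mul, hx x (by simp) N, zero_mul]

theorem prod_sq {l : List (RR hp)} (hne : l ≠ []) (hx : ∀ x ∈ l, x * x = 0) : l.prod * l.prod = 0 := by
  obtain ⟨x, l'', rfl⟩ := List.exists_cons_of_ne_nil hne
  rw [List.prod_cons, mul_mul_mul_comm, hx x (by simp), zero_mul]

theorem not_solvable {n : ℕ} (hn : 3 ≤ n) : ¬ Group.IsSolvable (KK hp n) := by
  intro hsol
  obtain ⟨k, hk⟩ := (Group.isSolvable_def _).1 hsol
  obtain ⟨l, hlen, hx, -, hne⟩ := long_list hp (2 ^ k)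
  have h01 : (⟨0, by omega⟩ : Fin n) ≠ ⟨1, by omega⟩ := by simp [Fin.ext_iff]
  have hne' : l ≠ [] := by
    intro h0; rw [h0] at hlen; exact absurd (show 0 < 2 ^ k by positivity) (by rw [← hlen]; exact lt_irrefl 0)
  have hm := el_mem hp (n := n) h01 (prod_rad hp hne' hx)
  have h1 := el_mem_derived hp hn k l hlen hx _ _ h01 hm
  rw [hk, Subgroup.mem_bot] at h1
  have h2 : (1 + Matrix.single (⟨0, by omega⟩ : Fin n) ⟨1, by omega⟩ l.prod :
      Matrix (Fin n) (Fin n) (RR hp)) = 1 := congrArg (fun g : KK hp n => g.1.val) h1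
  have h4 := congrFun (congrFun h2 ⟨0, by omega⟩) ⟨1, by omega⟩
  rw [Matrix.add_apply, Matrix.single_apply_same, add_eq_left] at h4
  exact hne h4

/-! ### degree two, `p` odd -/

theorem comm1 {n : ℕ} {r s : Fin n} (hrs : r ≠ s) {a b : RR hp} (ha : a * a = 0) (hb : b * b = 0) :
    (1 + Matrix.single r s a) * (1 + Matrix.single s r b) * (1 - Matrix.single r s a) *
      (1 - Matrix.single s r b) = 1 + (Matrix.single r r (a * b) - Matrix.single s s (a * b)) := by
  have hxx : Matrix.single r s a * Matrix.single r s a = 0 :=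
    Matrix.single_mul_single_of_ne _ _ _ _ (Ne.symm hrs) _
  have hyy : Matrix.single s r b * Matrix.single s r b = 0 :=
    Matrix.single_mul_single_of_ne _ _ _ _ hrs _
  have hxy : Matrix.single r s a * Matrix.single s r b = Matrix.single r r (a * b) :=
    Matrix.single_mul_single_same _ _ _ _ _
  have hyx : Matrix.single s r b * Matrix.single r s a = Matrix.single s s (a * b) := by
    rw [Matrix.single_mul_single_same, mul_comm]
  have hxyx : Matrix.single r s a * Matrix.single s r b * Matrix.single r s a = 0 := by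
    rw [hxy, Matrix.single_mul_single_same, mul_assoc, mul_comm b a, ← mul_assoc, ha, zero_mul, Matrix.single_zero]
  have hyxy : Matrix.single s r b * Matrix.single r s a * Matrix.single s r b = 0 := by
    rw [hyx, Matrix.single_mul_single_same, mul_assoc, hb, mul_zero, Matrix.single_zero]
  rw [← hxy, ← hyx]
  generalize Matrix.single r s a = x at *
  generalize Matrix.single s r b = y at *
  have h1 : (1 + x) * (1 + y) * (1 - x) * (1 - y) = 1 + (x * y - y * x) - x * x - y * y + x * x * y - x * y * x -
      x * y * y + y * x * y + x * y * x * y := by noncomm_ring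
  have h3 : x * y * y = 0 := by rw [mul_assoc, hyy, mul_zero]
  rw [h1, hxx, hyy, hxyx, hyxy, h3]
  simp

theorem comm2 {n : ℕ} {r s : Fin n} (hrs : r ≠ s) {h c : RR hp} (hh : h * h = 0) :
    (1 + (Matrix.single r r h - Matrix.single s s h)) * (1 + Matrix.single r s c) *
      (1 - (Matrix.single r r h - Matrix.single s s h)) * (1 - Matrix.single r s c) = 1 + Matrix.single r s (2 * h * c) := by
  set H : Matrix (Fin n) (Fin n) (RR hp) := Matrix.single r r h - Matrix.single s s h with hH
  have hrr : Matrix.single r r h * Matrix.single r s c = Matrix.single r s (h * c) := Matrix.single_mul_single_same _ _ _ _ _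
  have hss : Matrix.single s s h * Matrix.single r s c = 0 := Matrix.single_mul_single_of_ne _ _ _ _ (Ne.symm hrs) _
  have hrr' : Matrix.single r s c * Matrix.single r r h = 0 := Matrix.single_mul_single_of_ne _ _ _ _ (Ne.symm hrs) _
  have hss' : Matrix.single r s c * Matrix.single s s h = Matrix.single r s (h * c) := by
    rw [Matrix.single_mul_single_same, mul_comm]
  have hHZ : H * Matrix.single r s c = Matrix.single r s (h * c) := by rw [hH, sub_mul, hrr, hss, sub_zero]
  have hZH : Matrix.single r s c * H = -Matrix.single r s (h * c) := by rw [hH, mul_sub, hrr', hss', zero_sub]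
  have hZZ : Matrix.single r s c * Matrix.single r s c = 0 := Matrix.single_mul_single_of_ne _ _ _ _ (Ne.symm hrs) _
  have hHH : H * H = 0 := by
    rw [hH, sub_mul, mul_sub, mul_sub, Matrix.single_mul_single_same, Matrix.single_mul_single_same,
      Matrix.single_mul_single_of_ne _ _ _ _ hrs, Matrix.single_mul_single_of_ne _ _ _ _ (Ne.symm hrs), hh,
      Matrix.single_zero, Matrix.single_zero]
    simp
  have hHZH : H * Matrix.single r s c * H = 0 := by
    rw [hHZ, hH, mul_sub, Matrix.single_mul_single_of_ne _ _ _ _ (Ne.symm hrs), Matrix.single_mul_single_same,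
      mul_comm h c, mul_assoc, hh, mul_zero, Matrix.single_zero, sub_zero]
  have h2 : Matrix.single r s (2 * h * c) = H * Matrix.single r s c - Matrix.single r s c * H := by
    rw [hHZ, hZH, sub_neg_eq_add, ← Matrix.single_add]
    congr 1
    ring
  rw [h2]
  have hZHZ : Matrix.single r s c * H * Matrix.single r s c = 0 := by
    rw [mul_assoc, hHZ, Matrix.single_mul_single_of_ne _ _ _ _ (Ne.symm hrs)]
  generalize Matrix.single r s c = z at *
  have h1 : (1 + H) * (1 + z) * (1 - H) * (1 - z) = 1 + (H * z - z * H) - H * H - z * z - H * z * H - H * (z * z) + H * H * z +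
      z * H * z + H * z * H * z := by noncomm_ring
  rw [h1, hHH, hZZ, hHZH, hZHZ]
  simp

/-- diagonal elements -/
noncomputable def dg {n : ℕ} {r s : Fin n} (hrs : r ≠ s) {h : RR hp} (hh : h * h = 0) : GL (Fin n) (RR hp) where
  val := 1 + (Matrix.single r r h - Matrix.single s s h)
  inv := 1 - (Matrix.single r r h - Matrix.single s s h)
  val_inv := by
    have hHH : (Matrix.single r r h - Matrix.single s s h) * (Matrix.single r r h - Matrix.single s s h) = 0 := by
      rw [sub_mul, mul_sub, mul_sub, Matrix.single_mul_single_same, Matrix.single_mul_single_same,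
        Matrix.single_mul_single_of_ne _ _ _ _ hrs, Matrix.single_mul_single_of_ne _ _ _ _ (Ne.symm hrs), hh,
        Matrix.single_zero, Matrix.single_zero]
      simp
    have : ∀ x : Matrix (Fin n) (Fin n) (RR hp), (1 + x) * (1 - x) = 1 - x * x := by intro x; noncomm_ring
    rw [this, hHH, sub_zero]
  inv_val := by
    have hHH : (Matrix.single r r h - Matrix.single s s h) * (Matrix.single r r h - Matrix.single s s h) = 0 := by
      rw [sub_mul, mul_sub, mul_sub, Matrix.single_mul_single_same, Matrix.single_mul_single_same,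
        Matrix.single_mul_single_of_ne _ _ _ _ hrs, Matrix.single_mul_single_of_ne _ _ _ _ (Ne.symm hrs), hh,
        Matrix.single_zero, Matrix.single_zero]
      simp
    have : ∀ x : Matrix (Fin n) (Fin n) (RR hp), (1 - x) * (1 + x) = 1 - x * x := by intro x; noncomm_ring
    rw [this, hHH, sub_zero]

theorem el_mem_derived2 {n : ℕ} (h2 : p ≠ 2) (k : ℕ) : ∀ (l : List (RR hp)) (w : RR hp),
    l.length = 3 ^ k → (∀ x ∈ l, ∀ N, au hp N x = 0) → (∀ x ∈ l, x * x = 0) → ∀ (r s : Fin n) (h : r ≠ s)
    (hm : el hp h (w * l.prod) ∈ KK hp n), (⟨el hp h (w * l.prod), hm⟩ : KK hp n) ∈ derivedSeries (KK hp n) k := by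
  induction k with
  | zero => intro l w _ _ _ r s h hm; rw [derivedSeries_zero]; exact Subgroup.mem_top _
  | succ k ih =>
    intro l w hl hx hq r s h hm
    have hpos : 0 < 3 ^ k := by positivity
    set l1 := l.take (3 ^ k) with hl1
    set l2 := (l.drop (3 ^ k)).take (3 ^ k) with hl2
    set l3 := (l.drop (3 ^ k)).drop (3 ^ k) with hl3
    have e1 : l1.length = 3 ^ k := by rw [hl1, List.length_take, hl, pow_succ]; omega
    have e2 : l2.length = 3 ^ k := by rw [hl2, List.length_take, List.length_drop, hl, pow_succ]; omega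
    have e3 : l3.length = 3 ^ k := by rw [hl3, List.length_drop, List.length_drop, hl, pow_succ]; omega
    have n1 : l1 ≠ [] := by intro h0; rw [h0] at e1; exact absurd hpos (by rw [← e1]; exact lt_irrefl 0)
    have n2 : l2 ≠ [] := by intro h0; rw [h0] at e2; exact absurd hpos (by rw [← e2]; exact lt_irrefl 0)
    have n3 : l3 ≠ [] := by intro h0; rw [h0] at e3; exact absurd hpos (by rw [← e3]; exact lt_irrefl 0)
    have m1 : ∀ x ∈ l1, x ∈ l := fun x hx' => List.mem_of_mem_take hx'
    have m2 : ∀ x ∈ l2, x ∈ l := fun x hx' => List.mem_of_mem_drop (List.mem_of_mem_take hx')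
    have m3 : ∀ x ∈ l3, x ∈ l := fun x hx' => List.mem_of_mem_drop (List.mem_of_mem_drop hx')
    have hprod : l.prod = l1.prod * l2.prod * l3.prod := by
      rw [mul_assoc, hl2, hl3, List.prod_take_mul_prod_drop, hl1, List.prod_take_mul_prod_drop]
    -- one half
    obtain ⟨u, hu⟩ : ∃ u : RR hp, 2 * u = 1 := by
      refine ⟨(((p + 1) / 2 : ℕ) : RR hp), ?_⟩
      have hodd : (p + 1) / 2 * 2 = p + 1 := by
        rcases hp.eq_two_or_odd with h0 | h0
        · exact absurd h0 h2
        · omega
      have := charRR hp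
      have h3 : (2 : RR hp) * (((p + 1) / 2 : ℕ) : RR hp) = ((2 * ((p + 1) / 2) : ℕ) : RR hp) := by push_cast; ring
      rw [h3, mul_comm 2, hodd, Nat.cast_add, CharP.cast_eq_zero, zero_add, Nat.cast_one]
    have r1 : ∀ N, au hp N (1 * l1.prod) = 0 := fun N => by rw [one_mul]; exact prod_rad hp n1 (fun x hx' => hx x (m1 x hx')) N
    have r2 : ∀ N, au hp N (1 * l2.prod) = 0 := fun N => by rw [one_mul]; exact prod_rad hp n2 (fun x hx' => hx x (m2 x hx')) N
    have r3 : ∀ N, au hp N ((w * u) * l3.prod) = 0 := fun N => by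
      rw [map_mul, prod_rad hp n3 (fun x hx' => hx x (m3 x hx')) N, mul_zero]
    have g1 := ih l1 1 e1 (fun x hx' => hx x (m1 x hx')) (fun x hx' => hq x (m1 x hx')) r s h (el_mem hp h r1)
    have g2 := ih l2 1 e2 (fun x hx' => hx x (m2 x hx')) (fun x hx' => hq x (m2 x hx')) s r (Ne.symm h) (el_mem hp (Ne.symm h) r2)
    have g3 := ih l3 (w * u) e3 (fun x hx' => hx x (m3 x hx')) (fun x hx' => hq x (m3 x hx')) r s h (el_mem hp h r3)
    have q1 : (1 * l1.prod) * (1 * l1.prod) = 0 := by rw [one_mul]; exact prod_sq hp n1 (fun x hx' => hq x (m1 x hx'))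
    have q2 : (1 * l2.prod) * (1 * l2.prod) = 0 := by rw [one_mul]; exact prod_sq hp n2 (fun x hx' => hq x (m2 x hx'))
    have q12 : ((1 * l1.prod) * (1 * l2.prod)) * ((1 * l1.prod) * (1 * l2.prod)) = 0 := by
      rw [mul_mul_mul_comm, q1, zero_mul]
    have c1 := Subgroup.commutator_mem_commutator g1 g2
    rw [← derivedSeries_succ] at c1
    have hdm : dg hp h q12 ∈ KK hp n := by
      have h4 := ((⁅(⟨el hp h (1 * l1.prod), el_mem hp h r1⟩ : KK hp n),
        ⟨el hp (Ne.symm h) (1 * l2.prod), el_mem hp (Ne.symm h) r2⟩⁆ : KK hp n)).2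
      have h5 : ((⁅(⟨el hp h (1 * l1.prod), el_mem hp h r1⟩ : KK hp n),
        ⟨el hp (Ne.symm h) (1 * l2.prod), el_mem hp (Ne.symm h) r2⟩⁆ : KK hp n) : GL (Fin n) (RR hp)) = dg hp h q12 := by
        apply Units.ext
        exact comm1 hp h q1 q2
      rw [h5] at h4
      exact h4
    have c2 : (⟨dg hp h q12, hdm⟩ : KK hp n) ∈ derivedSeries (KK hp n) k := by
      have h4 : (⟨dg hp h q12, hdm⟩ : KK hp n) = ⁅(⟨el hp h (1 * l1.prod), el_mem hp h r1⟩ : KK hp n),
        ⟨el hp (Ne.symm h) (1 * l2.prod), el_mem hp (Ne.symm h) r2⟩⁆ := by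
        apply Subtype.ext
        apply Units.ext
        exact (comm1 hp h q1 q2).symm
      rw [h4]
      exact derivedSeries_antitone _ (Nat.le_succ k) c1
    rw [derivedSeries_succ]
    have c3 := Subgroup.commutator_mem_commutator c2 g3
    have h6 : (⟨el hp h (w * l.prod), hm⟩ : KK hp n) = ⁅(⟨dg hp h q12, hdm⟩ : KK hp n), ⟨el hp h ((w * u) * l3.prod), el_mem hp h r3⟩⁆ := by
      apply Subtype.ext
      apply Units.ext
      have h7 := comm2 hp h (h := (1 * l1.prod) * (1 * l2.prod)) (c := (w * u) * l3.prod) q12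
      have h8 : 2 * ((1 * l1.prod) * (1 * l2.prod)) * ((w * u) * l3.prod) = w * l.prod := by
        rw [hprod]
        linear_combination (l1.prod * l2.prod * w * l3.prod) * hu
      rw [h8] at h7
      exact h7.symm
    rw [h6]
    exact c3

theorem not_solvable2 {n : ℕ} (hn : 2 ≤ n) (h2 : p ≠ 2) : ¬ Group.IsSolvable (KK hp n) := by
  intro hsol
  obtain ⟨k, hk⟩ := (Group.isSolvable_def _).1 hsol
  obtain ⟨l, hlen, hx, hq, hne⟩ := long_list hp (3 ^ k)
  have h01 : (⟨0, by omega⟩ : Fin n) ≠ ⟨1, by omega⟩ := by simp [Fin.ext_iff]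
  have hne' : l ≠ [] := by
    intro h0; rw [h0] at hlen; exact absurd (show 0 < 3 ^ k by positivity) (by rw [← hlen]; exact lt_irrefl 0)
  have hm := el_mem hp (n := n) h01 (a := 1 * l.prod) (fun N => by rw [one_mul]; exact prod_rad hp hne' hx N)
  have h1 := el_mem_derived2 hp h2 k l 1 hlen hx hq _ _ h01 hm
  rw [hk, Subgroup.mem_bot] at h1
  have h3 : (1 + Matrix.single (⟨0, by omega⟩ : Fin n) ⟨1, by omega⟩ (1 * l.prod) :
      Matrix (Fin n) (Fin n) (RR hp)) = 1 := congrArg (fun g : KK hp n => g.1.val) h1
  have h4 := congrFun (congrFun h3 ⟨0, by omega⟩) ⟨1, by omega⟩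
  rw [Matrix.add_apply, Matrix.single_apply_same, add_eq_left, one_mul] at h4
  exact hne h4

/-! ### local finiteness -/

theorem locally_finite {n : ℕ} (hn : 1 ≤ n) (s : Finset (KK hp n)) : Finite (Subgroup.closure (s : Set (KK hp n))) := by
  have : Fact p.Prime := ⟨hp⟩
  have := charRR hp
  let _ : Algebra (ZMod p) (RR hp) := ZMod.algebra (RR hp) p
  set E : Set (RR hp) := ⋃ g ∈ s, ⋃ i, ⋃ j, {((g.1 : Matrix (Fin n) (Fin n) (RR hp)) - 1) i j} with hE
  have hEf : E.Finite := by
    rw [hE]
    refine Set.Finite.biUnion s.finite_toSet fun g _ => ?_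
    exact Set.finite_iUnion fun i => Set.finite_iUnion fun j => Set.finite_singleton _
  have hfg : (Subalgebra.toSubmodule (Algebra.adjoin (ZMod p) E)).FG := by
    refine fg_adjoin_of_finite hEf fun x hx => ?_
    simp only [hE, Set.mem_iUnion, Set.mem_singleton_iff] at hx
    obtain ⟨g, -, i, j, rfl⟩ := hx
    have h1 : (((g.1 : Matrix (Fin n) (Fin n) (RR hp)) - 1) i j) ^ p = 0 := by
      refine pow_eq_zero hp fun N => ?_
      rw [Matrix.sub_apply, map_sub, g.2 N i j, Matrix.one_apply, Matrix.one_apply]
      split_ifs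
      · rw [map_one, sub_self]
      · rw [map_zero, sub_self]
    exact ⟨Polynomial.X ^ p, Polynomial.monic_X_pow p, by rw [Polynomial.eval₂_X_pow]; exact h1⟩
  have hfin : Finite (Algebra.adjoin (ZMod p) E) := by
    have h1 : Module.Finite (ZMod p) (Algebra.adjoin (ZMod p) E) := Module.Finite.iff_fg.2 hfg
    exact Module.finite_of_finite (ZMod p)
  let H : Subgroup (KK hp n) :=
    { carrier := {g | ∀ i j, (g.1 : Matrix (Fin n) (Fin n) (RR hp)) i j ∈ Algebra.adjoin (ZMod p) E}
      one_mem' := by
        intro i j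
        change (1 : Matrix (Fin n) (Fin n) (RR hp)) i j ∈ _
        rw [Matrix.one_apply]
        split_ifs
        · exact Subalgebra.one_mem _
        · exact Subalgebra.zero_mem _
      mul_mem' := by
        intro a b ha hb i j
        change ((a.1 : Matrix (Fin n) (Fin n) (RR hp)) * (b.1 : Matrix (Fin n) (Fin n) (RR hp))) i j ∈ _
        rw [Matrix.mul_apply]
        exact Subalgebra.sum_mem _ fun l _ => Subalgebra.mul_mem _ (ha i l) (hb l j)
      inv_mem' := by
        intro a ha
        have h1 : a⁻¹ = a ^ (p ^ n - 1) := by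
          have h2 : a ^ (p ^ n - 1) * a = 1 := by
            rw [← pow_succ, Nat.sub_add_cancel (Nat.one_le_pow _ _ hp.pos)]
            exact exponent hp hn (le_pow hp hn) a
          exact (eq_inv_of_mul_eq_one_left h2).symm
        have h3 : ∀ k : ℕ, ∀ i j, ((a ^ k).1 : Matrix (Fin n) (Fin n) (RR hp)) i j ∈ Algebra.adjoin (ZMod p) E := by
          intro k
          induction k with
          | zero =>
            intro i j
            rw [pow_zero]
            change (1 : Matrix (Fin n) (Fin n) (RR hp)) i j ∈ _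
            rw [Matrix.one_apply]
            split_ifs
            · exact Subalgebra.one_mem _
            · exact Subalgebra.zero_mem _
          | succ k ih =>
            intro i j
            rw [pow_succ]
            change (((a ^ k).1 : Matrix (Fin n) (Fin n) (RR hp)) * (a.1 : Matrix (Fin n) (Fin n) (RR hp))) i j ∈ _
            rw [Matrix.mul_apply]
            exact Subalgebra.sum_mem _ fun l _ => Subalgebra.mul_mem _ (ih i l) (ha l j)
        rw [h1]
        exact h3 _ }
  have hHf : Finite H := by
    refine Finite.of_injective (fun g : H => fun i j => (⟨((g.1).1 : Matrix (Fin n) (Fin n) (RR hp)) i j, g.2 i j⟩ :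
      Algebra.adjoin (ZMod p) E)) ?_
    intro g g' hg
    apply Subtype.ext
    apply injective_val_KK hp n
    ext1 i j
    exact congrArg Subtype.val (congrFun (congrFun hg i) j)
  have hle : Subgroup.closure (s : Set (KK hp n)) ≤ H := by
    rw [Subgroup.closure_le]
    intro g hg i j
    have h1 : ((g.1 : Matrix (Fin n) (Fin n) (RR hp)) - 1) i j ∈ Algebra.adjoin (ZMod p) E := by
      apply Algebra.subset_adjoin
      simp only [hE, Set.mem_iUnion, Set.mem_singleton_iff]
      exact ⟨g, hg, i, j, rfl⟩
    have h2 : (1 : Matrix (Fin n) (Fin n) (RR hp)) i j ∈ Algebra.adjoin (ZMod p) E := by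
      rw [Matrix.one_apply]
      split_ifs
      · exact Subalgebra.one_mem _
      · exact Subalgebra.zero_mem _
    have h3 := Subalgebra.add_mem _ h1 h2
    rwa [Matrix.sub_apply, sub_add_cancel] at h3
  exact Finite.of_injective (Subgroup.inclusion hle) (Subgroup.inclusion_injective hle)

end ring

end Pool.Agent.Y113.TA
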